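import Pool.Agent.H34.CN.HK1

/-!
# HK: the Hecke operators on sums over vectors
-/

set_option autoImplicit false

open MeasureTheory Set Filter
open scoped Real Matrix MatrixGroups

namespace Pool.Agent.H34.CN

open Pool.Agent.H31.CN

/-- the terms of the sum -/
noncomputable def hkH (h : ℝ → ℝ) (l : List ℕ) (Q : QF) (v : ℤ × ℤ) : ℝ :=
  if v = 0 then 0 else h ((val Q v : ℝ) / (l.prod : ℝ)) * ((l.map (fun p => nul p Q v)).prod : ℕ)

theorem hk_nul_le (p : ℕ) (Q : QF) (v : ℤ × ℤ) : nul p Q v ≤ p + 1 := by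
  have h1 : prt p Q ≤ p + 1 := by
    unfold prt nrt
    have h2 := Finset.card_filter_le (Finset.range p)
      (fun j : ℕ => (p : ℤ) ∣ Q.1 * (j : ℤ) ^ 2 + Q.2.1 * (j : ℤ) + Q.2.2)
    rw [Finset.card_range] at h2
    split_ifs <;> omega
  unfold nul
  split_ifs <;> omega

theorem hk_prod_le (l : List ℕ) (Q : QF) (v : ℤ × ℤ) :
    (l.map (fun p => nul p Q v)).prod ≤ (l.map (fun p => p + 1)).prod := by
  induction l with
  | nil => simp
  | cons a l ih =>
    rw [List.map_cons, List.map_cons, List.prod_cons, List.prod_cons]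
    exact Nat.mul_le_mul (hk_nul_le a Q v) ih

/-- the Hecke operator evaluates at forms of the same discriminant -/
theorem hk_congr {Δ p : ℕ} (hp : p.Prime) {F G : QF → ℝ} (hFG : ∀ R ∈ FD Δ, F R = G R) {Q : QF}
    (hQ : Q ∈ FD Δ) : Tp p F Q = Tp p G Q := by
  unfold Tp
  refine congrArg₂ (· + ·) ?_ (Finset.sum_congr rfl fun j hj => ?_)
  · by_cases h : (p : ℤ) ∣ Q.1
    · rw [if_pos h, if_pos h, hFG _ (hk1_fd0 hp hQ h)]
    · rw [if_neg h, if_neg h]
  · exact hFG _ (hk1_fdj hp hQ (j : ℤ) (Finset.mem_filter.1 hj).2)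

theorem hk_term {h : ℝ → ℝ} {p : ℕ} (hp : p.Prime) (l : List ℕ) (Q Q' : QF) (v v' : ℤ × ℤ)
    (h0 : v' = 0 ↔ v = 0) (h1 : ∀ q ∈ l, nul q Q' v' = nul q Q v)
    (h2 : val Q' v' * p = val Q v) : hkH h l Q' v' =
      if v = 0 then 0 else h ((val Q v : ℝ) / ((p :: l).prod : ℝ)) *
        ((l.map (fun p => nul p Q v)).prod : ℕ) := by
  have hp0 : (p : ℝ) ≠ 0 := by exact_mod_cast hp.ne_zero
  unfold hkH
  by_cases hv : v = 0
  · rw [if_pos hv, if_pos (h0.2 hv)]
  · rw [if_neg hv, if_neg (fun h => hv (h0.1 h))]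
    have e1 : l.map (fun p => nul p Q' v') = l.map (fun p => nul p Q v) :=
      List.map_congr_left h1
    have e2 : (val Q' v' : ℝ) / (l.prod : ℝ) = (val Q v : ℝ) / ((p :: l).prod : ℝ) := by
      rw [← h2, List.prod_cons]
      push_cast
      rw [mul_comm (val Q' v' : ℝ) (p : ℝ), mul_div_mul_left _ _ hp0]
    rw [e1, e2]

theorem pf_HK (hHK1 : T_HK1) (hHK2 : T_HK2) (hHK3 : T_HK3) (hACT : T_ACT) : T_HK := by
  intro Δ K c h l hΔ hc hh
  induction l with
  | nil =>
    intro _ _ Q _
    refine tsum_congr fun v => ?_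
    simp
  | cons p l ih =>
    intro hnd hpr Q hQ
    have hp : p.Prime := hpr p (by simp)
    have hp0 : (0 : ℤ) < p := by exact_mod_cast hp.pos
    have hpl : p ∉ l := (List.nodup_cons.1 hnd).1
    have hprl : ∀ q ∈ l, q.Prime := fun q hq => hpr q (List.mem_cons_of_mem _ hq)
    have ih' := ih (List.nodup_cons.1 hnd).2 hprl
    have hlp : (0 : ℝ) < (l.prod : ℝ) := by
      have : 0 < l.prod := List.prod_pos fun q hq => (hprl q hq).pos
      exact_mod_cast this
    have e1 : TL (p :: l) (fun R => ∑' v : ℤ × ℤ, if v = 0 then 0 else h (val R v)) Q =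
        Tp p (fun R => ∑' v, hkH h l R v) Q := by
      change Tp p (TL l _) Q = _
      refine hk_congr hp (fun R hR => ?_) hQ
      rw [← ih' R hR]
      rfl
    have hbd : ∀ R ∈ FD Δ, ∀ v, |hkH h l R v| ≤
        |K| * ((l.map (fun p => p + 1)).prod : ℕ) * Real.exp (-((c / l.prod) * val R v)) := by
      intro R hR v
      unfold hkH
      by_cases hv : v = 0
      · rw [if_pos hv, abs_zero]
        positivity
      · rw [if_neg hv, abs_mul, Nat.abs_cast]
        have hpos : (0 : ℝ) < val R v := by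
          exact_mod_cast ((hACT R 1 1 v).2.2.2.2.2 Δ hΔ hR).2 hv
        have h1 := hh ((val R v : ℝ) / (l.prod : ℝ)) (div_pos hpos hlp)
        have h2 : |h ((val R v : ℝ) / (l.prod : ℝ))| ≤
            |K| * Real.exp (-((c / l.prod) * val R v)) := by
          have h3 : c * ((val R v : ℝ) / (l.prod : ℝ)) = (c / l.prod) * val R v := by ring
          rw [h3] at h1
          exact h1.trans (mul_le_mul_of_nonneg_right (le_abs_self K) (Real.exp_pos _).le)
        have h4 : (((l.map (fun p => nul p R v)).prod : ℕ) : ℝ) ≤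
            (((l.map (fun p => p + 1)).prod : ℕ) : ℝ) := by
          exact_mod_cast hk_prod_le l R v
        calc _ ≤ |K| * Real.exp (-((c / l.prod) * val R v)) *
              (((l.map (fun p => p + 1)).prod : ℕ) : ℝ) :=
              mul_le_mul h2 h4 (Nat.cast_nonneg _) (by positivity)
          _ = _ := by ring
    rw [e1, hHK1 Δ p _ (c / l.prod) (hkH h l) hΔ hp (div_pos hc hlp) hbd Q hQ]
    refine tsum_congr fun v => ?_
    set X : ℝ := if v = 0 then 0 else h ((val Q v : ℝ) / ((p :: l).prod : ℝ)) *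
        ((l.map (fun p => nul p Q v)).prod : ℕ) with hX
    have t0 : (if (p : ℤ) ∣ Q.1 ∧ (p : ℤ) ∣ v.2 then
        hkH h l (Q.1 / p, Q.2.1, p * Q.2.2) (v.1, v.2 / p) else 0) =
        ((if (p : ℤ) ∣ Q.1 ∧ (p : ℤ) ∣ v.2 then 1 else 0 : ℕ) : ℝ) * X := by
      by_cases hA : (p : ℤ) ∣ Q.1 ∧ (p : ℤ) ∣ v.2
      · rw [if_pos hA, if_pos hA, Nat.cast_one, one_mul, hX]
        refine hk_term hp l Q _ v _ ?_ (fun q hq => ?_) ?_
        · obtain ⟨w, hw⟩ := hA.2
          have h5 : v.2 / p = w := by rw [hw]; exact Int.mul_ediv_cancel_left w hp0.ne'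
          rw [h5]
          constructor
          · intro h6
            have h7 := Prod.mk.inj h6
            refine Prod.ext h7.1 ?_
            rw [hw, h7.2]
            simp
          · intro h6
            rw [h6] at hw ⊢
            refine Prod.ext rfl ?_
            have h7 : (p : ℤ) * w = 0 := hw.symm
            rcases mul_eq_zero.1 h7 with h8 | h8
            · exact absurd h8 hp0.ne'
            · exact h8
        · have hqp : q ≠ p := fun h6 => hpl (h6 ▸ hq)
          exact ((hHK2 p q Q v hp (hprl q hq) hqp).1 hA.1 hA.2).1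
        · by_cases hl : ∃ q : ℕ, q.Prime ∧ q ≠ p
          · obtain ⟨q, hq, hqp⟩ := hl
            exact ((hHK2 p q Q v hp hq hqp).1 hA.1 hA.2).2
          · exfalso
            by_cases h2 : p = 2
            · exact hl ⟨3, Nat.prime_three, by omega⟩
            · exact hl ⟨2, Nat.prime_two, fun h => h2 h.symm⟩
      · rw [if_neg hA, if_neg hA, Nat.cast_zero, zero_mul]
    have t1 : ∑ j ∈ (Finset.range p).filter (fun j : ℕ =>
        (p : ℤ) ∣ Q.1 * (j : ℤ) ^ 2 + Q.2.1 * (j : ℤ) + Q.2.2 ∧ (p : ℤ) ∣ v.1 - j * v.2),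
        hkH h l (p * Q.1, Q.2.1 + 2 * Q.1 * j,
          (Q.1 * (j : ℤ) ^ 2 + Q.2.1 * (j : ℤ) + Q.2.2) / p) ((v.1 - j * v.2) / p, v.2) =
        (((Finset.range p).filter (fun j : ℕ =>
        (p : ℤ) ∣ Q.1 * (j : ℤ) ^ 2 + Q.2.1 * (j : ℤ) + Q.2.2 ∧
          (p : ℤ) ∣ v.1 - j * v.2)).card : ℝ) * X := by
      refine Eq.trans (Finset.sum_congr rfl (g := fun _ => X) fun j hj => ?_)
        (by rw [Finset.sum_const, nsmul_eq_mul])
      obtain ⟨-, hj1, hj2⟩ := Finset.mem_filter.1 hj
      rw [hX]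
      refine hk_term hp l Q _ v _ ?_ (fun q hq => ?_) ?_
      · obtain ⟨w, hw⟩ := hj2
        have h5 : (v.1 - j * v.2) / p = w := by rw [hw]; exact Int.mul_ediv_cancel_left w hp0.ne'
        rw [h5]
        constructor
        · intro h6
          have h7 := Prod.mk.inj h6
          refine Prod.ext ?_ h7.2
          rw [h7.1, h7.2] at hw
          have h8 : v.1 = 0 := by linarith
          exact h8
        · intro h6
          rw [h6] at hw ⊢
          refine Prod.ext ?_ rfl
          have h7 : (p : ℤ) * w = 0 := by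
            rw [← hw]
            simp
          rcases mul_eq_zero.1 h7 with h8 | h8
          · exact absurd h8 hp0.ne'
          · exact h8
      · have hqp : q ≠ p := fun h6 => hpl (h6 ▸ hq)
        exact ((hHK2 p q Q v hp (hprl q hq) hqp).2 j hj1 hj2).1
      · by_cases hl : ∃ q : ℕ, q.Prime ∧ q ≠ p
        · obtain ⟨q, hq, hqp⟩ := hl
          exact ((hHK2 p q Q v hp hq hqp).2 j hj1 hj2).2
        · exfalso
          by_cases h2 : p = 2
          · exact hl ⟨3, Nat.prime_three, by omega⟩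
          · exact hl ⟨2, Nat.prime_two, fun h => h2 h.symm⟩
    have e5 : ((p :: l).map (fun p => nul p Q v)).prod =
        nul p Q v * (l.map (fun p => nul p Q v)).prod := by
      rw [List.map_cons, List.prod_cons]
    rw [t0, t1, ← add_mul, ← Nat.cast_add, hHK3 p Q v hp, hX, e5, Nat.cast_mul]
    by_cases hv : v = 0
    · rw [if_pos hv, if_pos hv, mul_zero]
    · rw [if_neg hv, if_neg hv]
      ring

end Pool.Agent.H34.CN
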