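import Pool.Agent.H31.CN.T1

/-!
# HK1: one Hecke operator on sums over vectors
-/

set_option autoImplicit false

open MeasureTheory Set Filter
open scoped Real Matrix MatrixGroups

namespace Pool.Agent.H34.CN

open Pool.Agent.H31.CN

theorem hk1_fd0 {Δ p : ℕ} (hp : p.Prime) {Q : QF} (hQ : Q ∈ FD Δ) (h : (p : ℤ) ∣ Q.1) :
    ((Q.1 / p, Q.2.1, p * Q.2.2) : QF) ∈ FD Δ := by
  have hp0 : (0 : ℤ) < p := by exact_mod_cast hp.pos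
  obtain ⟨a, ha⟩ := h
  obtain ⟨h1, h2⟩ := hQ
  have h3 : Q.1 / p = a := by rw [ha]; exact Int.mul_ediv_cancel_left a hp0.ne'
  refine ⟨?_, ?_⟩
  · change 0 < Q.1 / p
    rw [h3]
    rw [ha] at h1
    exact pos_of_mul_pos_right h1 hp0.le
  · rw [← h2]
    change 4 * (Q.1 / p) * (p * Q.2.2) - Q.2.1 ^ 2 = 4 * Q.1 * Q.2.2 - Q.2.1 ^ 2
    rw [h3, ha]
    ring

theorem hk1_fdj {Δ p : ℕ} (hp : p.Prime) {Q : QF} (hQ : Q ∈ FD Δ) (j : ℤ)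
    (h : (p : ℤ) ∣ Q.1 * j ^ 2 + Q.2.1 * j + Q.2.2) :
    ((p * Q.1, Q.2.1 + 2 * Q.1 * j, (Q.1 * j ^ 2 + Q.2.1 * j + Q.2.2) / p) : QF) ∈ FD Δ := by
  have hp0 : (0 : ℤ) < p := by exact_mod_cast hp.pos
  obtain ⟨a, ha⟩ := h
  obtain ⟨h1, h2⟩ := hQ
  have h3 : (Q.1 * j ^ 2 + Q.2.1 * j + Q.2.2) / p = a := by
    rw [ha]; exact Int.mul_ediv_cancel_left a hp0.ne'
  refine ⟨mul_pos hp0 h1, ?_⟩
  rw [← h2]
  change 4 * (p * Q.1) * ((Q.1 * j ^ 2 + Q.2.1 * j + Q.2.2) / p) - (Q.2.1 + 2 * Q.1 * j) ^ 2 =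
    4 * Q.1 * Q.2.2 - Q.2.1 ^ 2
  rw [h3]
  linear_combination (-(4 * Q.1)) * ha

theorem pf_HK1 (hVGR : T_VGR) : T_HK1 := by
  intro Δ p K c H hΔ hp hc hH Q hQ
  have hp0 : (0 : ℤ) < p := by exact_mod_cast hp.pos
  obtain ⟨K', hK'⟩ := hVGR Δ c hΔ hc
  have hsum : ∀ R ∈ FD Δ, Summable (H R) := by
    intro R hR
    have h1 := ((hK' R hR).1.mul_left K)
    exact Summable.of_norm_bounded h1 fun v => by
      rw [Real.norm_eq_abs]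
      exact hH R hR v
  -- the first term
  have key0 : (p : ℤ) ∣ Q.1 → Summable (fun v : ℤ × ℤ => if (p : ℤ) ∣ Q.1 ∧ (p : ℤ) ∣ v.2 then
      H (Q.1 / p, Q.2.1, p * Q.2.2) (v.1, v.2 / p) else 0) ∧
      ∑' v : ℤ × ℤ, (if (p : ℤ) ∣ Q.1 ∧ (p : ℤ) ∣ v.2 then
      H (Q.1 / p, Q.2.1, p * Q.2.2) (v.1, v.2 / p) else 0) =
        ∑' v, H (Q.1 / p, Q.2.1, p * Q.2.2) v := by
    intro hA
    have hinj : Function.Injective (fun v : ℤ × ℤ => ((v.1, p * v.2) : ℤ × ℤ)) := by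
      intro v w h
      rw [Prod.mk.injEq] at h
      exact Prod.ext h.1 (mul_left_cancel₀ hp0.ne' h.2)
    have hout : ∀ v : ℤ × ℤ, v ∉ Set.range (fun v : ℤ × ℤ => ((v.1, p * v.2) : ℤ × ℤ)) →
        (if (p : ℤ) ∣ Q.1 ∧ (p : ℤ) ∣ v.2 then
          H (Q.1 / p, Q.2.1, p * Q.2.2) (v.1, v.2 / p) else 0) = 0 := by
      intro v hv
      rw [if_neg]
      rintro ⟨-, w, hw⟩
      exact hv ⟨(v.1, w), by simp only [← hw]⟩
    have hcomp : (fun v : ℤ × ℤ => if (p : ℤ) ∣ Q.1 ∧ (p : ℤ) ∣ v.2 then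
        H (Q.1 / p, Q.2.1, p * Q.2.2) (v.1, v.2 / p) else 0) ∘
          (fun v : ℤ × ℤ => ((v.1, p * v.2) : ℤ × ℤ)) = H (Q.1 / p, Q.2.1, p * Q.2.2) := by
      funext v
      simp only [Function.comp_apply]
      rw [if_pos ⟨hA, dvd_mul_right _ _⟩, Int.mul_ediv_cancel_left _ hp0.ne']
    refine ⟨(hinj.summable_iff hout).1 (by rw [hcomp]; exact hsum _ (hk1_fd0 hp hQ hA)), ?_⟩
    rw [← hinj.tsum_eq (fun v hv => by
      by_contra h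
      exact hv (hout v h))]
    exact congrArg tsum hcomp
  -- the other terms
  have key1 : ∀ j : ℤ, (p : ℤ) ∣ Q.1 * j ^ 2 + Q.2.1 * j + Q.2.2 →
      Summable (fun v : ℤ × ℤ => if (p : ℤ) ∣ v.1 - j * v.2 then
        H (p * Q.1, Q.2.1 + 2 * Q.1 * j, (Q.1 * j ^ 2 + Q.2.1 * j + Q.2.2) / p)
          ((v.1 - j * v.2) / p, v.2) else 0) ∧
      ∑' v : ℤ × ℤ, (if (p : ℤ) ∣ v.1 - j * v.2 then
        H (p * Q.1, Q.2.1 + 2 * Q.1 * j, (Q.1 * j ^ 2 + Q.2.1 * j + Q.2.2) / p)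
          ((v.1 - j * v.2) / p, v.2) else 0) =
        ∑' v, H (p * Q.1, Q.2.1 + 2 * Q.1 * j, (Q.1 * j ^ 2 + Q.2.1 * j + Q.2.2) / p) v := by
    intro j hj
    have hinj : Function.Injective (fun v : ℤ × ℤ => ((p * v.1 + j * v.2, v.2) : ℤ × ℤ)) := by
      intro v w h
      rw [Prod.mk.injEq] at h
      have h2 := h.1
      rw [h.2] at h2
      exact Prod.ext (mul_left_cancel₀ hp0.ne' (add_right_cancel h2)) h.2
    have hout : ∀ v : ℤ × ℤ,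
        v ∉ Set.range (fun v : ℤ × ℤ => ((p * v.1 + j * v.2, v.2) : ℤ × ℤ)) →
        (if (p : ℤ) ∣ v.1 - j * v.2 then
        H (p * Q.1, Q.2.1 + 2 * Q.1 * j, (Q.1 * j ^ 2 + Q.2.1 * j + Q.2.2) / p)
          ((v.1 - j * v.2) / p, v.2) else 0) = 0 := by
      intro v hv
      rw [if_neg]
      rintro ⟨w, hw⟩
      refine hv ⟨(w, v.2), Prod.ext ?_ rfl⟩
      change p * w + j * v.2 = v.1
      linarith
    have hcomp : (fun v : ℤ × ℤ => if (p : ℤ) ∣ v.1 - j * v.2 then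
        H (p * Q.1, Q.2.1 + 2 * Q.1 * j, (Q.1 * j ^ 2 + Q.2.1 * j + Q.2.2) / p)
          ((v.1 - j * v.2) / p, v.2) else 0) ∘
          (fun v : ℤ × ℤ => ((p * v.1 + j * v.2, v.2) : ℤ × ℤ)) =
        H (p * Q.1, Q.2.1 + 2 * Q.1 * j, (Q.1 * j ^ 2 + Q.2.1 * j + Q.2.2) / p) := by
      funext v
      simp only [Function.comp_apply]
      rw [add_sub_cancel_right, if_pos (dvd_mul_right _ _), Int.mul_ediv_cancel_left _ hp0.ne']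
    refine ⟨(hinj.summable_iff hout).1 (by rw [hcomp]; exact hsum _ (hk1_fdj hp hQ j hj)), ?_⟩
    rw [← hinj.tsum_eq (fun v hv => by
      by_contra h
      exact hv (hout v h))]
    exact congrArg tsum hcomp
  have hsplit : ∀ v : ℤ × ℤ, ∑ j ∈ (Finset.range p).filter (fun j : ℕ =>
      (p : ℤ) ∣ Q.1 * (j : ℤ) ^ 2 + Q.2.1 * (j : ℤ) + Q.2.2 ∧ (p : ℤ) ∣ v.1 - j * v.2),
      H (p * Q.1, Q.2.1 + 2 * Q.1 * j,
        (Q.1 * (j : ℤ) ^ 2 + Q.2.1 * (j : ℤ) + Q.2.2) / p) ((v.1 - j * v.2) / p, v.2) =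
      ∑ j ∈ (Finset.range p).filter (fun j : ℕ =>
        (p : ℤ) ∣ Q.1 * (j : ℤ) ^ 2 + Q.2.1 * (j : ℤ) + Q.2.2),
        if (p : ℤ) ∣ v.1 - j * v.2 then H (p * Q.1, Q.2.1 + 2 * Q.1 * j,
          (Q.1 * (j : ℤ) ^ 2 + Q.2.1 * (j : ℤ) + Q.2.2) / p) ((v.1 - j * v.2) / p, v.2)
        else 0 := by
    intro v
    rw [← Finset.sum_filter, Finset.filter_filter]
  have hs0 : Summable (fun v : ℤ × ℤ => if (p : ℤ) ∣ Q.1 ∧ (p : ℤ) ∣ v.2 then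
      H (Q.1 / p, Q.2.1, p * Q.2.2) (v.1, v.2 / p) else 0) := by
    by_cases hA : (p : ℤ) ∣ Q.1
    · exact (key0 hA).1
    · have h1 : (fun v : ℤ × ℤ => if (p : ℤ) ∣ Q.1 ∧ (p : ℤ) ∣ v.2 then
          H (Q.1 / p, Q.2.1, p * Q.2.2) (v.1, v.2 / p) else 0) = fun _ => 0 := by
        funext v
        rw [if_neg fun h => hA h.1]
      rw [h1]
      exact summable_zero
  have hs1 : ∀ j ∈ (Finset.range p).filter (fun j : ℕ =>
      (p : ℤ) ∣ Q.1 * (j : ℤ) ^ 2 + Q.2.1 * (j : ℤ) + Q.2.2), Summable (fun v : ℤ × ℤ =>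
        if (p : ℤ) ∣ v.1 - j * v.2 then H (p * Q.1, Q.2.1 + 2 * Q.1 * j,
          (Q.1 * (j : ℤ) ^ 2 + Q.2.1 * (j : ℤ) + Q.2.2) / p) ((v.1 - j * v.2) / p, v.2)
        else 0) := fun j hj => (key1 j (Finset.mem_filter.1 hj).2).1
  rw [tsum_congr fun v => by rw [hsplit v], hs0.tsum_add (summable_sum hs1),
    Summable.tsum_finsetSum hs1]
  unfold Tp
  have h1 : (if (p : ℤ) ∣ Q.1 then ∑' v, H (Q.1 / p, Q.2.1, p * Q.2.2) v else 0) =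
      ∑' v : ℤ × ℤ, (if (p : ℤ) ∣ Q.1 ∧ (p : ℤ) ∣ v.2 then
        H (Q.1 / p, Q.2.1, p * Q.2.2) (v.1, v.2 / p) else 0) := by
    by_cases hA : (p : ℤ) ∣ Q.1
    · rw [if_pos hA]
      exact (key0 hA).2.symm
    · rw [if_neg hA]
      have h2 : (fun v : ℤ × ℤ => if (p : ℤ) ∣ Q.1 ∧ (p : ℤ) ∣ v.2 then
          H (Q.1 / p, Q.2.1, p * Q.2.2) (v.1, v.2 / p) else 0) = fun _ => 0 := by
        funext v
        rw [if_neg fun h => hA h.1]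
      rw [h2, tsum_zero]
  rw [h1]
  refine congrArg₂ (· + ·) rfl (Finset.sum_congr rfl fun j hj => ?_)
  exact (key1 j (Finset.mem_filter.1 hj).2).2.symm

end Pool.Agent.H34.CN
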