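import Pool.Agent.H31.CN.T5

/-!
# OB0: the unit ideal has the principal form
-/

set_option autoImplicit false

open MeasureTheory Set Filter NumberField
open scoped Real nonZeroDivisors

namespace Pool.Agent.H34.CN

open Pool.Agent.H31.CN

/-- reduction of a form which represents `1` -/
theorem ob0_red (A B C x y D : ℤ) (hD : D % 2 = 1) (hd : 4 * A * C - B ^ 2 = D)
    (h1 : A * x ^ 2 + B * x * y + C * y ^ 2 = 1) :
    ∃ u w : ℤ, x * w - y * u = 1 ∧ 2 * A * x * u + B * (x * w + u * y) + 2 * C * y * w = 1 ∧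
      A * u ^ 2 + B * u * w + C * w ^ 2 = (D + 1) / 4 := by
  have hcop : ∃ u w : ℤ, x * w - y * u = 1 :=
    ⟨-(B * x + C * y), A * x, by linear_combination h1⟩
  obtain ⟨u, w, huw⟩ := hcop
  set B' := 2 * A * x * u + B * (x * w + u * y) + 2 * C * y * w with hB'
  have hdisc : 4 * (A * u ^ 2 + B * u * w + C * w ^ 2) - B' ^ 2 = D := by
    have h2 : 4 * ((A * x ^ 2 + B * x * y + C * y ^ 2) *
        (A * u ^ 2 + B * u * w + C * w ^ 2)) - B' ^ 2 =
        (4 * A * C - B ^ 2) * (x * w - y * u) ^ 2 := by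
      rw [hB']
      ring
    rw [h1, huw, hd] at h2
    linarith
  have hodd : B' % 2 = 1 := by
    rcases Int.emod_two_eq_zero_or_one B' with h | h
    · exfalso
      obtain ⟨s, hs⟩ := Int.dvd_of_emod_eq_zero h
      rw [hs] at hdisc
      have h3 : D = 2 * (2 * (A * u ^ 2 + B * u * w + C * w ^ 2) - 2 * s ^ 2) := by
        linear_combination -hdisc
      omega
    · exact h
  obtain ⟨t, ht⟩ : ∃ t : ℤ, B' + 2 * t = 1 := ⟨-(B' / 2), by omega⟩
  refine ⟨u + t * x, w + t * y, by linear_combination huw, ?_, ?_⟩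
  · have h4 : 2 * A * x * (u + t * x) + B * (x * (w + t * y) + (u + t * x) * y) +
        2 * C * y * (w + t * y) = B' + 2 * t * (A * x ^ 2 + B * x * y + C * y ^ 2) := by
      rw [hB']
      ring
    rw [h4, h1, mul_one, ht]
  · have h5 : A * (u + t * x) ^ 2 + B * (u + t * x) * (w + t * y) + C * (w + t * y) ^ 2 =
        (A * u ^ 2 + B * u * w + C * w ^ 2) + t * B' +
          t ^ 2 * (A * x ^ 2 + B * x * y + C * y ^ 2) := by
      rw [hB']
      ring
    rw [h1] at h5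
    have h6 : 4 * (A * (u + t * x) ^ 2 + B * (u + t * x) * (w + t * y) +
        C * (w + t * y) ^ 2) = D + 1 := by
      rw [h5]
      have h7 : (B' + 2 * t) ^ 2 = 1 := by rw [ht]; norm_num
      linear_combination hdisc + h7
    omega

theorem pf_OB0 (hOB1 : T_OB1) : T_OB0 := by
  intro D K _ _ σ hD3 hD4 hfr hdis
  obtain ⟨α, β, Q, hQ, hOB⟩ := hOB1 D K σ hD3 hD4 hfr hdis ⊤ top_ne_bot
  obtain ⟨⟨x, y⟩, hxy⟩ := (hOB.mem 1).1 Submodule.mem_top
  have hxy' : (x : 𝓞 K) * α + (y : 𝓞 K) * β = 1 := hxy.symm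
  have hone : val Q (x, y) = 1 := by
    have h1 := hOB.nrm (x, y)
    change Complex.normSq (σ (((x : 𝓞 K) * α + (y : 𝓞 K) * β : 𝓞 K) : K)) = _ at h1
    rw [hxy', Ideal.absNorm_top] at h1
    have h2 : ((1 : 𝓞 K) : K) = 1 := rfl
    rw [h2, map_one, map_one, Nat.cast_one, one_mul] at h1
    exact_mod_cast h1.symm
  obtain ⟨u, w, huw, hB, hC⟩ := ob0_red Q.1 Q.2.1 Q.2.2 x y D (by omega) hQ.2 hone
  have huwK : (x : 𝓞 K) * w - y * u = 1 := by exact_mod_cast congrArg (Int.cast : ℤ → 𝓞 K) huw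
  have hcomb : ∀ v : ℤ × ℤ, (v.1 : 𝓞 K) * 1 + (v.2 : 𝓞 K) * ((u : 𝓞 K) * α + (w : 𝓞 K) * β) =
      ((v.1 * x + v.2 * u : ℤ) : 𝓞 K) * α + ((v.1 * y + v.2 * w : ℤ) : 𝓞 K) * β := by
    intro v
    rw [← hxy']
    push_cast
    ring
  refine ⟨1, (u : 𝓞 K) * α + (w : 𝓞 K) * β, ?_, ?_, ?_, ?_⟩
  · intro γ
    refine ⟨fun hγ => ?_, fun _ => Submodule.mem_top⟩
    obtain ⟨v, hv⟩ := (hOB.mem γ).1 hγ
    refine ⟨(v.1 * w - v.2 * u, v.2 * x - v.1 * y), ?_⟩
    rw [hcomb, hv]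
    have e1 : (v.1 * w - v.2 * u) * x + (v.2 * x - v.1 * y) * u = v.1 := by
      linear_combination v.1 * huw
    have e2 : (v.1 * w - v.2 * u) * y + (v.2 * x - v.1 * y) * w = v.2 := by
      linear_combination v.2 * huw
    change _ = (((v.1 * w - v.2 * u) * x + (v.2 * x - v.1 * y) * u : ℤ) : 𝓞 K) * α +
      (((v.1 * w - v.2 * u) * y + (v.2 * x - v.1 * y) * w : ℤ) : 𝓞 K) * β
    rw [e1, e2]
  · intro v hv
    rw [hcomb] at hv
    have h1 := hOB.inj (v.1 * x + v.2 * u, v.1 * y + v.2 * w) hv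
    have h2 := Prod.mk.inj h1
    refine Prod.ext ?_ ?_
    · change v.1 = 0
      linear_combination w * h2.1 - u * h2.2 - v.1 * huw
    · change v.2 = 0
      linear_combination x * h2.2 - y * h2.1 - v.2 * huw
  · intro v
    rw [hcomb]
    have h1 := hOB.nrm (v.1 * x + v.2 * u, v.1 * y + v.2 * w)
    have h2 : val Q (v.1 * x + v.2 * u, v.1 * y + v.2 * w) =
        val (1, 1, ((D : ℤ) + 1) / 4) v := by
      have h3 : val Q (x, y) = Q.1 * x ^ 2 + Q.2.1 * x * y + Q.2.2 * y ^ 2 := rfl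
      have h4 : val Q (v.1 * x + v.2 * u, v.1 * y + v.2 * w) =
          val Q (x, y) * v.1 ^ 2 + (2 * Q.1 * x * u + Q.2.1 * (x * w + u * y) +
            2 * Q.2.2 * y * w) * v.1 * v.2 +
            (Q.1 * u ^ 2 + Q.2.1 * u * w + Q.2.2 * w ^ 2) * v.2 ^ 2 := by
        rw [h3]
        unfold val
        ring
      rw [h4, hone, hB, hC]
      rfl
    rw [h2] at h1
    exact h1
  · have h1 := hOB.ori
    have h2 : ((1 : 𝓞 K) : K) = (((x : 𝓞 K) * α + (y : 𝓞 K) * β : 𝓞 K) : K) := by rw [hxy']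
    have h3 : σ ((1 : 𝓞 K) : K) = (x : ℂ) * σ (α : K) + (y : ℂ) * σ (β : K) := by
      rw [h2]
      simp
    have h4 : σ (((u : 𝓞 K) * α + (w : 𝓞 K) * β : 𝓞 K) : K) =
        (u : ℂ) * σ (α : K) + (w : ℂ) * σ (β : K) := by
      simp
    rw [h3, h4]
    have h5 : ((starRingEnd ℂ) ((x : ℂ) * σ (α : K) + (y : ℂ) * σ (β : K)) *
        ((u : ℂ) * σ (α : K) + (w : ℂ) * σ (β : K))).im =
        ((x * w - y * u : ℤ) : ℝ) * ((starRingEnd ℂ) (σ (α : K)) * σ (β : K)).im := by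
      simp only [map_add, map_mul, Complex.mul_im, Complex.mul_re, Complex.add_re, Complex.add_im,
        Complex.conj_re, Complex.conj_im, Complex.intCast_re, Complex.intCast_im]
      push_cast
      ring
    rw [h5, huw]
    simpa using h1

end Pool.Agent.H34.CN
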