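import Pool.Agent.H31.CN.T1

/-!
# NUI: the local numbers are invariant
-/

set_option autoImplicit false

open MeasureTheory Set Filter
open scoped Real Matrix MatrixGroups

namespace Pool.Agent.H34.CN

open Pool.Agent.H31.CN

section

variable (p : ℕ) [Fact p.Prime]

/-- the zeros of a form modulo `p` -/
def nuiZ (Q : QF) : Finset (ZMod p × ZMod p) :=
  Finset.univ.filter fun w => (Q.1 : ZMod p) * w.1 ^ 2 + (Q.2.1 : ZMod p) * w.1 * w.2 +
    (Q.2.2 : ZMod p) * w.2 ^ 2 = 0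

/-- matrix times vector modulo `p` -/
def nuiG (g : SL(2, ℤ)) (w : ZMod p × ZMod p) : ZMod p × ZMod p :=
  (((g 0 0 : ℤ) : ZMod p) * w.1 + ((g 0 1 : ℤ) : ZMod p) * w.2,
    ((g 1 0 : ℤ) : ZMod p) * w.1 + ((g 1 1 : ℤ) : ZMod p) * w.2)

theorem nui_lift (w : ZMod p × ZMod p) : ∃ v : ℤ × ℤ, ((v.1 : ZMod p), (v.2 : ZMod p)) = w := by
  obtain ⟨a, ha⟩ := ZMod.intCast_surjective w.1
  obtain ⟨b, hb⟩ := ZMod.intCast_surjective w.2
  exact ⟨(a, b), Prod.ext ha hb⟩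

theorem nui_G (g : SL(2, ℤ)) (v : ℤ × ℤ) :
    nuiG p g ((v.1 : ZMod p), (v.2 : ZMod p)) =
      (((gv g v).1 : ZMod p), ((gv g v).2 : ZMod p)) := by
  unfold nuiG gv
  push_cast
  rfl

theorem nui_mem (Q : QF) (v : ℤ × ℤ) :
    ((v.1 : ZMod p), (v.2 : ZMod p)) ∈ nuiZ p Q ↔ (p : ℤ) ∣ val Q v := by
  unfold nuiZ
  rw [Finset.mem_filter, ← ZMod.intCast_zmod_eq_zero_iff_dvd]
  unfold val
  push_cast
  simp

theorem nui_card_eq (hACT : T_ACT) (Q : QF) (g : SL(2, ℤ)) :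
    (nuiZ p (act Q g)).card = (nuiZ p Q).card := by
  have hmem : ∀ (R : QF) (h : SL(2, ℤ)) (w : ZMod p × ZMod p),
      w ∈ nuiZ p (act R h) ↔ nuiG p h w ∈ nuiZ p R := by
    intro R h w
    obtain ⟨v, rfl⟩ := nui_lift p w
    rw [nui_G, nui_mem, nui_mem, (hACT R h 1 v).1]
  have hinv : ∀ (h : SL(2, ℤ)) (w : ZMod p × ZMod p), nuiG p h⁻¹ (nuiG p h w) = w := by
    intro h w
    obtain ⟨v, rfl⟩ := nui_lift p w
    rw [nui_G, nui_G]
    have h1 : gv h⁻¹ (gv h v) = v := by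
      rw [← (hACT Q h⁻¹ h v).2.2.2.2.1, inv_mul_cancel]
      unfold gv
      simp
    rw [h1]
  refine Finset.card_nbij' (nuiG p g) (nuiG p g⁻¹) (fun w hw => (hmem Q g w).1 hw)
    (fun w hw => ?_) (fun w _ => hinv g w) (fun w _ => ?_)
  · rw [Finset.mem_coe] at hw ⊢
    rw [hmem Q g]
    have h2 := hinv g⁻¹ w
    rw [inv_inv] at h2
    rw [h2]
    exact hw
  · have h2 := hinv g⁻¹ w
    rw [inv_inv] at h2
    exact h2

/-- the number of roots -/
theorem nui_nrt (A B C : ℤ) : nrt p A B C =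
    (Finset.univ.filter fun j : ZMod p => (A : ZMod p) * j ^ 2 + (B : ZMod p) * j + C = 0).card := by
  unfold nrt
  have hp : 0 < p := (Fact.out : p.Prime).pos
  have : NeZero p := ⟨hp.ne'⟩
  refine Finset.card_nbij' (fun j : ℕ => (j : ZMod p)) (fun x => x.val) ?_ ?_ ?_ ?_
  · intro j hj
    rw [Finset.mem_coe, Finset.mem_filter] at hj ⊢
    refine ⟨Finset.mem_univ _, ?_⟩
    have h1 := (ZMod.intCast_zmod_eq_zero_iff_dvd _ p).2 hj.2
    push_cast at h1
    exact h1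
  · intro x hx
    rw [Finset.mem_coe, Finset.mem_filter] at hx ⊢
    refine ⟨Finset.mem_range.2 (ZMod.val_lt x), ?_⟩
    rw [← ZMod.intCast_zmod_eq_zero_iff_dvd]
    push_cast
    rw [ZMod.natCast_zmod_val]
    exact hx.2
  · intro j hj
    rw [Finset.mem_coe, Finset.mem_filter, Finset.mem_range] at hj
    exact ZMod.val_natCast_of_lt hj.1
  · intro x _
    exact ZMod.natCast_zmod_val x

theorem nui_count (Q : QF) : (nuiZ p Q).card = 1 + (p - 1) * prt p Q := by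
  classical
  have hp : 0 < p := (Fact.out : p.Prime).pos
  have : NeZero p := ⟨hp.ne'⟩
  have h0 : (nuiZ p Q).card = ∑ y : ZMod p, (Finset.univ.filter fun x : ZMod p =>
      (Q.1 : ZMod p) * x ^ 2 + (Q.2.1 : ZMod p) * x * y + (Q.2.2 : ZMod p) * y ^ 2 = 0).card := by
    unfold nuiZ
    rw [Finset.card_filter, Fintype.sum_prod_type_right]
    refine Finset.sum_congr rfl fun y _ => ?_
    rw [Finset.card_filter]
  rw [h0, ← Finset.add_sum_erase _ _ (Finset.mem_univ (0 : ZMod p))]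
  have h1 : (Finset.univ.filter fun x : ZMod p => (Q.1 : ZMod p) * x ^ 2 +
      (Q.2.1 : ZMod p) * x * 0 + (Q.2.2 : ZMod p) * 0 ^ 2 = 0).card =
      1 + (p - 1) * (if (p : ℤ) ∣ Q.1 then 1 else 0) := by
    by_cases hA : (p : ℤ) ∣ Q.1
    · rw [if_pos hA]
      have hA' := (ZMod.intCast_zmod_eq_zero_iff_dvd Q.1 p).2 hA
      rw [hA', Finset.filter_true_of_mem (fun x _ => by ring), Finset.card_univ, ZMod.card]
      omega
    · rw [if_neg hA]
      have hA' : (Q.1 : ZMod p) ≠ 0 := fun h =>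
        hA ((ZMod.intCast_zmod_eq_zero_iff_dvd Q.1 p).1 h)
      have h2 : (Finset.univ.filter fun x : ZMod p => (Q.1 : ZMod p) * x ^ 2 +
          (Q.2.1 : ZMod p) * x * 0 + (Q.2.2 : ZMod p) * 0 ^ 2 = 0) = {0} := by
        ext x
        rw [Finset.mem_filter, Finset.mem_singleton]
        constructor
        · rintro ⟨-, h3⟩
          have h4 : (Q.1 : ZMod p) * x ^ 2 = 0 := by linear_combination h3
          rcases mul_eq_zero.1 h4 with h5 | h5
          · exact absurd h5 hA'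
          · exact pow_eq_zero_iff (two_ne_zero) |>.1 h5
        · rintro rfl
          exact ⟨Finset.mem_univ _, by ring⟩
      rw [h2, Finset.card_singleton]
      simp
  have h2 : ∀ y ∈ Finset.univ.erase (0 : ZMod p), (Finset.univ.filter fun x : ZMod p =>
      (Q.1 : ZMod p) * x ^ 2 + (Q.2.1 : ZMod p) * x * y + (Q.2.2 : ZMod p) * y ^ 2 = 0).card =
      nrt p Q.1 Q.2.1 Q.2.2 := by
    intro y hy
    have hy0 : y ≠ 0 := Finset.ne_of_mem_erase hy
    rw [nui_nrt]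
    refine Finset.card_nbij' (fun x => x / y) (fun j => j * y) ?_ ?_ ?_ ?_
    · intro x hx
      rw [Finset.mem_coe, Finset.mem_filter] at hx ⊢
      refine ⟨Finset.mem_univ _, ?_⟩
      have h3 : (Q.1 : ZMod p) * (x / y) ^ 2 + (Q.2.1 : ZMod p) * (x / y) + (Q.2.2 : ZMod p) =
          ((Q.1 : ZMod p) * x ^ 2 + (Q.2.1 : ZMod p) * x * y + (Q.2.2 : ZMod p) * y ^ 2) /
            y ^ 2 := by
        field_simp
      rw [h3, hx.2, zero_div]
    · intro j hj
      rw [Finset.mem_coe, Finset.mem_filter] at hj ⊢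
      refine ⟨Finset.mem_univ _, ?_⟩
      linear_combination y ^ 2 * hj.2
    · intro x _
      exact div_mul_cancel₀ x hy0
    · intro j _
      exact mul_div_cancel_right₀ j hy0
  rw [h1, Finset.sum_congr rfl h2, Finset.sum_const, Finset.card_erase_of_mem (Finset.mem_univ _),
    Finset.card_univ, ZMod.card, smul_eq_mul]
  unfold prt
  ring

end

theorem pf_NUI (hACT : T_ACT) : T_NUI := by
  intro p Q g v hp
  have : Fact p.Prime := ⟨hp⟩
  have h1 : prt p (act Q g) = prt p Q := by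
    have h2 := nui_card_eq p hACT Q g
    rw [nui_count, nui_count] at h2
    have h3 : 0 < p - 1 := by have := hp.two_le; omega
    exact Nat.eq_of_mul_eq_mul_left h3 (Nat.add_left_cancel h2)
  have h4 : ((p : ℤ) ∣ v.1 ∧ (p : ℤ) ∣ v.2) ↔
      ((p : ℤ) ∣ (gv g v).1 ∧ (p : ℤ) ∣ (gv g v).2) := by
    have hlin : ∀ (h : SL(2, ℤ)) (w : ℤ × ℤ), ((p : ℤ) ∣ w.1 ∧ (p : ℤ) ∣ w.2) →
        ((p : ℤ) ∣ (gv h w).1 ∧ (p : ℤ) ∣ (gv h w).2) := by
      rintro h w ⟨h5, h6⟩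
      exact ⟨dvd_add (dvd_mul_of_dvd_right h5 _) (dvd_mul_of_dvd_right h6 _),
        dvd_add (dvd_mul_of_dvd_right h5 _) (dvd_mul_of_dvd_right h6 _)⟩
    refine ⟨hlin g v, fun h => ?_⟩
    have h5 := hlin g⁻¹ _ h
    have h6 : gv g⁻¹ (gv g v) = v := by
      rw [← (hACT Q g⁻¹ g v).2.2.2.2.1, inv_mul_cancel]
      unfold gv
      simp
    rwa [h6] at h5
  unfold nul
  rw [h1, (hACT Q g 1 v).1]
  by_cases h : (p : ℤ) ∣ v.1 ∧ (p : ℤ) ∣ v.2
  · rw [if_pos h, if_pos (h4.1 h)]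
  · rw [if_neg h, if_neg (fun h' => h (h4.2 h'))]

end Pool.Agent.H34.CN
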