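import Pool.Agent.H57.CN.Targets

/-!
Row SRT of the board chn_modules: the types of names.
-/

set_option autoImplicit false
set_option linter.unusedVariables false

namespace Pool.Agent.H34.CN

open Pool.Agent.H57.CN
open Pool.Agent.H68.BP Pool.Agent.H58.SF Pool.Agent.H53.NR
open Pool.Agent.H53.GC (strOn sigOf)
open Pool.Agent.H57.AR (tp ty Ty)
open Pool.Agent.H57.LH (Hmg tp_iff ty_strOn)
open Pool.Agent.H44.KR (HB Amg Tyi TpOn LcN)
open Pool.Agent.H72.CH
open Function

theorem pf_SRT : T_SRT := by
  intro V ρ 𝔹 m lv hV hm R 𝔻 st β c hN p q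
  rw [hN.str, ty_strOn]
  constructor
  · intro h
    exact (h (Sum.inl (st q))).mpr rfl
  · intro h s
    rcases s with i | P
    · change st p = i ↔ st q = i
      rw [h]
    · refine NR_type hV P _ _ (fun _ => h) fun h0 => ?_
      have hc : ∀ a, P.1 a = st p := fun a => (h0 a (P.1 a) le_rfl).symm
      refine tp_iff.2 ⟨fun a b => ?_, fun l z => ?_⟩
      · simp only [hc a, hc b]
      · simp only [hc]
        exact iff_of_eq (congrFun (hV.one _ _) l)

end Pool.Agent.H34.CN
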